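import Mathlib
import Pool.Agent.Y674.HY.Stm

/-!
# Points with trivial image modulo rational numbers and squares: roots, the set-up at one point
-/

set_option autoImplicit false

namespace Pool.Agent.Y515.HY

open Polynomial Pool.Agent.Y674.HY

/-! ### Roots -/

theorem mem_rt {h : ℤ[X]} (h0 : h ≠ 0) {r : ℂ} : r ∈ Rt h ↔ aeval r h = 0 := by
  classical
  unfold Rt
  rw [Multiset.mem_toFinset, mem_roots_map_of_injective (RingHom.injective_int _) h0]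
  rfl

theorem rt_eq (h : ℤ[X]) : Rt h = by
    classical exact (((h.map (Int.castRingHom ℚ)).map (algebraMap ℚ ℂ)).roots.toFinset) := by
  unfold Rt
  rw [Polynomial.map_map]
  congr 2

theorem rt_card {h : ℤ[X]} (sep : (h.map (Int.castRingHom ℚ)).Separable) :
    (Rt h).card = h.natDegree := by
  classical
  rw [rt_eq, Multiset.toFinset_card_of_nodup (nodup_roots (sep.map)),
    IsAlgClosed.card_roots_map_eq_natDegree_of_injective _ (algebraMap ℚ ℂ).injective,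
    natDegree_map_eq_of_injective (RingHom.injective_int _)]

theorem root_bound {h : ℤ[X]} {H : ℕ} (h0 : h ≠ 0) (hH : ∀ i, |h.coeff i| ≤ (H : ℤ)) {r : ℂ}
    (hr : r ∈ Rt h) : ‖(h.leadingCoeff : ℂ) * r‖ ≤ 2 * H := by
  set p : ℂ[X] := h.map (Int.castRingHom ℂ) with hp
  have hp0 : p ≠ 0 := (Polynomial.map_ne_zero_iff (RingHom.injective_int _)).2 h0
  have hroot : p.IsRoot r := by
    rw [IsRoot.def, hp, eval_map]
    exact (mem_rt h0).1 hr
  have h1 := IsRoot.norm_lt_cauchyBound hp0 hroot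
  unfold cauchyBound at h1
  have hlc : p.leadingCoeff = (h.leadingCoeff : ℂ) := by
    rw [hp, leadingCoeff_map_of_injective (RingHom.injective_int _)]
    rfl
  rw [hlc] at h1
  have hc : ∀ i, ‖p.coeff i‖₊ ≤ (H : NNReal) := by
    intro i
    rw [← NNReal.coe_le_coe, coe_nnnorm, hp, coeff_map]
    change ‖((h.coeff i : ℤ) : ℂ)‖ ≤ _
    rw [Complex.norm_intCast]
    have h2 := hH i
    have h3 : ((|h.coeff i| : ℤ) : ℝ) ≤ ((H : ℤ) : ℝ) := by exact_mod_cast h2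
    push_cast at h3 ⊢
    exact h3
  have hsup : (Finset.sup (Finset.range p.natDegree) (‖p.coeff ·‖₊)) ≤ (H : NNReal) :=
    Finset.sup_le (fun i _ => hc i)
  have hb0 : (h.leadingCoeff : ℂ) ≠ 0 := by
    rw [← hlc]
    exact leadingCoeff_ne_zero.2 hp0
  have hbn : 0 < ‖(h.leadingCoeff : ℂ)‖ := norm_pos_iff.2 hb0
  have hbH : ‖(h.leadingCoeff : ℂ)‖ ≤ H := by
    have h2 := hc p.natDegree
    rw [coeff_natDegree, hlc, ← NNReal.coe_le_coe, coe_nnnorm, NNReal.coe_natCast] at h2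
    exact h2
  have h2 : ‖r‖ < H / ‖(h.leadingCoeff : ℂ)‖ + 1 := by
    have h3 : (‖r‖₊ : NNReal) < (H : NNReal) / ‖(h.leadingCoeff : ℂ)‖₊ + 1 :=
      lt_of_lt_of_le h1 (by gcongr)
    have h4 := NNReal.coe_lt_coe.2 h3
    push_cast at h4
    exact h4
  rw [norm_mul]
  calc ‖(h.leadingCoeff : ℂ)‖ * ‖r‖ ≤ ‖(h.leadingCoeff : ℂ)‖ * (H / ‖(h.leadingCoeff : ℂ)‖ + 1) := by
        gcongr
    _ = H + ‖(h.leadingCoeff : ℂ)‖ := by field_simp
    _ ≤ 2 * H := by linarith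

/-- a symmetric sum over the roots is rational -/
theorem sum_rat_aux {f : ℚ[X]} (hf : f.Separable) (g : ℚ[X]) (K : Type) [Field K] [Algebra ℚ K]
    [IsSplittingField ℚ K f] [DecidableEq ℂ] : ∃ w : ℚ,
    ∑ r ∈ (f.map (algebraMap ℚ ℂ)).roots.toFinset, aeval r g = (w : ℂ) := by
  classical
  have hfin : FiniteDimensional ℚ K := IsSplittingField.finiteDimensional K f
  have hgal : IsGalois ℚ K := IsGalois.of_separable_splitting_field (p := f) hf
  let φ : K →ₐ[ℚ] ℂ := IsAlgClosed.lift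
  have hsp : (f.map (algebraMap ℚ K)).Splits := IsSplittingField.splits K f
  have hr1 : (f.map (algebraMap ℚ ℂ)).roots = (f.map (algebraMap ℚ K)).roots.map φ := by
    have h1 := hsp.roots_map (φ : K →+* ℂ)
    rw [Polynomial.map_map] at h1
    have h2 : (φ : K →+* ℂ).comp (algebraMap ℚ K) = algebraMap ℚ ℂ :=
      RingHom.ext fun x => φ.commutes x
    rw [h2] at h1
    exact h1
  have hr2 : (f.map (algebraMap ℚ ℂ)).roots.toFinset =
      (f.map (algebraMap ℚ K)).roots.toFinset.image φ := by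
    rw [hr1, Multiset.toFinset_map]
  have hinj : Function.Injective φ := (φ : K →+* ℂ).injective
  rw [hr2, Finset.sum_image (fun x _ y _ h => hinj h)]
  have h3 : ∑ x ∈ (f.map (algebraMap ℚ K)).roots.toFinset, aeval (φ x) g =
      φ (∑ x ∈ (f.map (algebraMap ℚ K)).roots.toFinset, aeval x g) := by
    rw [map_sum]
    exact Finset.sum_congr rfl (fun x _ => (aeval_algHom_apply φ x g))
  have h4 : (∑ x ∈ (f.map (algebraMap ℚ K)).roots.toFinset, aeval x g) ∈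
      (⊥ : IntermediateField ℚ K) := by
    rw [IsGalois.mem_bot_iff_fixed]
    intro σ
    rw [map_sum]
    refine Finset.sum_bij (fun x _ => σ x) ?_ ?_ ?_ ?_
    · intro x hx
      rw [Multiset.mem_toFinset, mem_roots', IsRoot.def, eval_map_algebraMap] at hx ⊢
      refine ⟨hx.1, ?_⟩
      have h5 : aeval (σ x) f = σ (aeval x f) := aeval_algHom_apply (σ : K →ₐ[ℚ] K) x f
      rw [h5, hx.2, map_zero]
    · intro x _ y _ hxy
      exact σ.injective hxy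
    · intro y hy
      refine ⟨σ.symm y, ?_, σ.apply_symm_apply y⟩
      rw [Multiset.mem_toFinset, mem_roots', IsRoot.def, eval_map_algebraMap] at hy ⊢
      refine ⟨hy.1, ?_⟩
      have h5 : aeval (σ.symm y) f = σ.symm (aeval y f) :=
        aeval_algHom_apply (σ.symm : K →ₐ[ℚ] K) y f
      rw [h5, hy.2, map_zero]
    · intro x _
      exact (aeval_algHom_apply (σ : K →ₐ[ℚ] K) x g).symm
  rw [IntermediateField.mem_bot] at h4
  obtain ⟨w, hw⟩ := h4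
  refine ⟨w, ?_⟩
  rw [h3, ← hw, φ.commutes]
  rfl

theorem sum_rat {h : ℤ[X]} (sep : (h.map (Int.castRingHom ℚ)).Separable) (g : ℚ[X]) :
    ∃ w : ℚ, ∑ r ∈ Rt h, aeval r g = (w : ℂ) := by
  classical
  obtain ⟨w, hw⟩ := @sum_rat_aux _ sep g (h.map (Int.castRingHom ℚ)).SplittingField _ _
    (IsSplittingField.splittingField _) _
  refine ⟨w, ?_⟩
  rw [rt_eq, ← hw]

/-! ### The set-up at one point -/

/-- the expansion of the square root, normalised -/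
theorem exps' {e : ℕ} {β : ℕ → ℝ} {C : ℝ}
    (hexp : ∀ (u : ℝ) (z : ℂ), 0 < u → 2 * ‖z‖ ≤ u ^ 2 → ∃ θ : ℂ, θ ^ 2 = (u : ℂ) ^ 2 - z ∧
      ‖θ - u * ∑ j ∈ Finset.range (e + 1), (β j : ℂ) * (z / (u : ℂ) ^ 2) ^ j‖ ≤
        C * u * (‖z‖ / u ^ 2) ^ (e + 1)) {v : ℝ} (hv : 0 < v) (z : ℂ) (hz : 2 * ‖z‖ ≤ v) :
    ∃ t : ℂ, (v : ℂ) * t ^ 2 = v - z ∧
      ‖t - ∑ j ∈ Finset.range (e + 1), (β j : ℂ) * (z / (v : ℂ)) ^ j‖ ≤
        C * (‖z‖ / v) ^ (e + 1) := by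
  set u : ℝ := Real.sqrt v with hu
  have hu0 : 0 < u := Real.sqrt_pos.2 hv
  have hu2 : u ^ 2 = v := Real.sq_sqrt hv.le
  have hu2c : (u : ℂ) ^ 2 = v := by
    rw [← hu2]
    push_cast
    rfl
  have huc : (u : ℂ) ≠ 0 := by
    exact_mod_cast hu0.ne'
  obtain ⟨θ, hθ, hθ'⟩ := hexp u z hu0 (by rw [hu2]; exact hz)
  rw [hu2c] at hθ hθ'
  rw [hu2] at hθ'
  refine ⟨θ / u, ?_, ?_⟩
  · rw [div_pow, hθ, hu2c]
    have : (v : ℂ) ≠ 0 := by exact_mod_cast hv.ne'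
    field_simp
  · have h1 : θ / u - ∑ j ∈ Finset.range (e + 1), (β j : ℂ) * (z / (v : ℂ)) ^ j =
        (θ - u * ∑ j ∈ Finset.range (e + 1), (β j : ℂ) * (z / (v : ℂ)) ^ j) / u := by
      field_simp
    rw [h1, norm_div, Complex.norm_real, Real.norm_of_nonneg hu0.le, div_le_iff₀ hu0]
    calc _ ≤ C * u * (‖z‖ / v) ^ (e + 1) := hθ'
      _ = _ := by ring

/-- the square root at one point -/
theorem setup {e : ℕ} {β : ℕ → ℝ} {K : ℝ} (hK : 0 ≤ K)
    (hexp : ∀ (v : ℝ), 0 < v → ∀ (z : ℂ), 2 * ‖z‖ ≤ v → ∃ t : ℂ, (v : ℂ) * t ^ 2 = v - z ∧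
      ‖t - ∑ j ∈ Finset.range (e + 1), (β j : ℂ) * (z / (v : ℂ)) ^ j‖ ≤
        K * (‖z‖ / v) ^ (e + 1))
    {h : ℤ[X]} {H : ℕ} (hdeg : h.natDegree = e) (he : 2 ≤ e)
    (sep : (h.map (Int.castRingHom ℚ)).Separable)
    (hH : ∀ i, |h.coeff i| ≤ (H : ℤ)) {x : ℤ} {D : ℚ} {ρ : ℚ[X]}
    (hdvd : h.map (Int.castRingHom ℚ) ∣ C D * ρ ^ 2 - (C (x : ℚ) - X)) {v : ℤ}
    (hv : v = h.leadingCoeff * x) (hv0 : 0 < v) (hv4 : 4 * (H : ℤ) ≤ v) :
    ∃ (ε : ℂ → ℤ) (z : ℂ) (Q : ℤ), (∀ r ∈ Rt h, ε r = 1 ∨ ε r = -1) ∧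
      (v : ℂ) * z ^ 2 = Q ∧
      ‖z - ∑ j ∈ Finset.range (e + 1), (β j : ℂ) *
        (∑ r ∈ Rt h, (ε r : ℂ) * ((h.leadingCoeff : ℂ) * r) ^ j) / (v : ℂ) ^ j‖ ≤
          e * (K * (2 * H / (v : ℝ)) ^ (e + 1)) := by
  have h0 : h ≠ 0 := by
    rintro rfl
    rw [natDegree_zero] at hdeg
    omega
  set b : ℂ := (h.leadingCoeff : ℂ) with hb
  have hvr : (0 : ℝ) < (v : ℝ) := by exact_mod_cast hv0
  have hvc : (((v : ℝ)) : ℂ) = (v : ℂ) := by push_cast; rfl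
  have hbound : ∀ r ∈ Rt h, ‖b * r‖ ≤ 2 * H := fun r hr => root_bound h0 hH hr
  have hR : ∀ r ∈ Rt h, ∃ t : ℂ, (v : ℂ) * t ^ 2 = v - b * r ∧
      ‖t - ∑ j ∈ Finset.range (e + 1), (β j : ℂ) * ((b * r) / (v : ℂ)) ^ j‖ ≤
        K * (‖b * r‖ / v) ^ (e + 1) := by
    intro r hr
    have h1 : 2 * ‖b * r‖ ≤ (v : ℝ) := by
      have h2 := hbound r hr
      have h3 : 4 * (H : ℝ) ≤ v := by exact_mod_cast hv4
      linarith
    have h2 := hexp v hvr (b * r) h1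
    rw [hvc] at h2
    exact h2
  choose! t ht using hR
  obtain ⟨δ, hδ⟩ := IsAlgClosed.exists_pow_nat_eq (b * (D : ℂ)) (n := 2) two_pos
  obtain ⟨u, hu⟩ := IsAlgClosed.exists_pow_nat_eq (v : ℂ) (n := 2) two_pos
  have hρ : ∀ r ∈ Rt h, (D : ℂ) * (aeval r ρ) ^ 2 = x - r := by
    intro r hr
    obtain ⟨g, hg⟩ := hdvd
    have h1 := congrArg (aeval r) hg
    rw [map_mul, map_sub, map_mul, map_pow, map_sub, aeval_C, aeval_C, aeval_X] at h1
    have h2 : aeval r (h.map (Int.castRingHom ℚ)) = 0 := by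
      rw [← (mem_rt h0).1 hr]
      exact aeval_map_algebraMap ℚ r h
    rw [h2, zero_mul, sub_eq_zero] at h1
    simpa using h1
  have hε : ∀ r ∈ Rt h, ∃ ε : ℤ, (ε = 1 ∨ ε = -1) ∧ δ * aeval r ρ = ε * (u * t r) := by
    intro r hr
    have h1 : (δ * aeval r ρ) ^ 2 = (u * t r) ^ 2 := by
      rw [mul_pow, mul_pow, hδ, hu, (ht r hr).1, mul_assoc, hρ r hr, hv]
      push_cast
      ring
    rcases sq_eq_sq_iff_eq_or_eq_neg.1 h1 with h2 | h2
    · exact ⟨1, Or.inl rfl, by rw [h2]; push_cast; ring⟩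
    · exact ⟨-1, Or.inr rfl, by rw [h2]; push_cast; ring⟩
  choose! ε hε using hε
  obtain ⟨w, hw⟩ := sum_rat sep ρ
  set z : ℂ := ∑ r ∈ Rt h, (ε r : ℂ) * t r with hz
  have huz : u * z = δ * w := by
    rw [← hw, hz, Finset.mul_sum, Finset.mul_sum]
    refine Finset.sum_congr rfl (fun r hr => ?_)
    rw [(hε r hr).2]
    ring
  have hvz : (v : ℂ) * z ^ 2 = ((h.leadingCoeff * D * w ^ 2 : ℚ) : ℂ) := by
    rw [← hu, ← mul_pow, huz, mul_pow, hδ, hb]
    push_cast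
    ring
  have hint : IsIntegral ℤ (u * z) := by
    rw [hz, Finset.mul_sum]
    refine IsIntegral.sum _ (fun r hr => ?_)
    have e1 : u * ((ε r : ℂ) * t r) = (ε r : ℂ) * (u * t r) := by ring
    rw [e1]
    refine IsIntegral.mul (isIntegral_algebraMap (x := ε r)) ?_
    refine IsIntegral.of_pow two_pos ?_
    rw [mul_pow, hu, (ht r hr).1]
    refine IsIntegral.sub (isIntegral_algebraMap (x := v)) ?_
    have h1 := isIntegral_leadingCoeff_smul h r ((mem_rt h0).1 hr)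
    rwa [zsmul_eq_mul] at h1
  have hint2 : IsIntegral ℤ ((algebraMap ℚ ℂ) (h.leadingCoeff * D * w ^ 2)) := by
    have h1 := hint.pow 2
    rw [mul_pow, hu, hvz] at h1
    exact h1
  rw [isIntegral_algebraMap_iff (algebraMap ℚ ℂ).injective, IsIntegrallyClosed.isIntegral_iff]
    at hint2
  obtain ⟨Q, hQ⟩ := hint2
  refine ⟨ε, z, Q, fun r hr => (hε r hr).1, ?_, ?_⟩
  · rw [hvz, ← hQ]
    simp
  · have e1 : z - ∑ j ∈ Finset.range (e + 1), (β j : ℂ) *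
        (∑ r ∈ Rt h, (ε r : ℂ) * (b * r) ^ j) / (v : ℂ) ^ j =
        ∑ r ∈ Rt h, (ε r : ℂ) * (t r - ∑ j ∈ Finset.range (e + 1),
          (β j : ℂ) * ((b * r) / (v : ℂ)) ^ j) := by
      simp only [mul_sub, Finset.sum_sub_distrib]
      congr 1
      simp only [Finset.mul_sum, Finset.sum_div]
      rw [Finset.sum_comm]
      refine Finset.sum_congr rfl (fun r _ => Finset.sum_congr rfl (fun j _ => ?_))
      rw [div_pow]
      ring
    rw [e1]
    refine (norm_sum_le _ _).trans ?_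
    have h1 : ∀ r ∈ Rt h, ‖(ε r : ℂ) * (t r - ∑ j ∈ Finset.range (e + 1),
          (β j : ℂ) * ((b * r) / (v : ℂ)) ^ j)‖ ≤ K * (2 * H / (v : ℝ)) ^ (e + 1) := by
      intro r hr
      have h2 : ‖(ε r : ℂ)‖ = 1 := by
        rcases (hε r hr).1 with h3 | h3 <;> rw [h3] <;> simp
      rw [norm_mul, h2, one_mul]
      refine (ht r hr).2.trans ?_
      gcongr
      exact hbound r hr
    refine (Finset.sum_le_sum h1).trans ?_
    rw [Finset.sum_const, rt_card sep, hdeg, nsmul_eq_mul]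

end Pool.Agent.Y515.HY
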