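import Mathlib

/-!
# Points with trivial image modulo rational numbers and squares: the final algebra, and sequences
which are bounded by a power of the height
-/

set_option autoImplicit false

namespace Pool.Agent.Y515.HY

open Polynomial Filter

/-! ### The final algebra -/

theorem final_alg {R : Finset ℂ} (hR : 2 ≤ R.card) {b s N : ℂ} (hb : b ≠ 0) {ε : ℂ → ℂ}
    (hε : ∀ r ∈ R, ε r ≠ 0)
    (h : ∀ j ≤ R.card, ∑ r ∈ R, ε r * (b * r) ^ j = N * s ^ j) : False := by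
  classical
  have hP : ∀ P : ℂ[X], P.natDegree ≤ R.card →
      ∑ r ∈ R, ε r * P.eval (b * r) = N * P.eval s := by
    intro P hP
    have h1 : ∀ y : ℂ, P.eval y = ∑ i ∈ Finset.range (R.card + 1), P.coeff i * y ^ i := fun y =>
      eval_eq_sum_range' (by omega) y
    rw [h1 s, Finset.mul_sum]
    simp_rw [h1, Finset.mul_sum]
    rw [Finset.sum_comm]
    refine Finset.sum_congr rfl (fun j hj => ?_)
    have h2 := h j (by
      rw [Finset.mem_range] at hj
      omega)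
    calc ∑ r ∈ R, ε r * (P.coeff j * (b * r) ^ j) = P.coeff j * ∑ r ∈ R, ε r * (b * r) ^ j := by
          rw [Finset.mul_sum]
          refine Finset.sum_congr rfl (fun r _ => ?_)
          ring
      _ = N * (P.coeff j * s ^ j) := by
          rw [h2]
          ring
  have key : ∀ r1 ∈ R, N * ∏ r ∈ R.erase r1, (s - b * r) ≠ 0 := by
    intro r1 hr1
    have h1 := hP (∏ r ∈ R.erase r1, (X - C (b * r))) (by
      rw [natDegree_prod_of_monic _ _ (fun r _ => monic_X_sub_C _)]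
      simp only [natDegree_X_sub_C, Finset.sum_const, smul_eq_mul, mul_one]
      exact Finset.card_le_card (Finset.erase_subset _ _))
    simp only [eval_prod, eval_sub, eval_X, eval_C] at h1
    rw [← h1, Finset.sum_eq_single_of_mem r1 hr1]
    · refine mul_ne_zero (hε r1 hr1) (Finset.prod_ne_zero_iff.2 (fun r hr => ?_))
      rw [← mul_sub]
      refine mul_ne_zero hb (sub_ne_zero.2 ?_)
      exact (Finset.ne_of_mem_erase hr).symm
    · intro r hr hne
      rw [Finset.prod_eq_zero (Finset.mem_erase.2 ⟨hne, hr⟩) (sub_self (b * r)), mul_zero]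
  have hfull : N * ∏ r ∈ R, (s - b * r) = 0 := by
    have h1 := hP (∏ r ∈ R, (X - C (b * r))) (by
      rw [natDegree_prod_of_monic _ _ (fun r _ => monic_X_sub_C _)]
      simp only [natDegree_X_sub_C, Finset.sum_const, smul_eq_mul, mul_one]
      exact le_refl _)
    simp only [eval_prod, eval_sub, eval_X, eval_C] at h1
    rw [← h1]
    refine Finset.sum_eq_zero (fun r hr => ?_)
    rw [Finset.prod_eq_zero hr (sub_self (b * r)), mul_zero]
  obtain ⟨r0, hr0⟩ : ∃ r0, r0 ∈ R := by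
    apply Finset.card_pos.1
    omega
  rcases mul_eq_zero.1 hfull with h1 | h1
  · exact key r0 hr0 (by rw [h1, zero_mul])
  · obtain ⟨r2, hr2, h2⟩ := Finset.prod_eq_zero_iff.1 h1
    obtain ⟨r1, hr1, hne⟩ : ∃ r1 ∈ R, r1 ≠ r2 := by
      by_contra hcon
      push Not at hcon
      have : R ⊆ {r2} := fun r hr => Finset.mem_singleton.2 (hcon r hr)
      have := Finset.card_le_card this
      rw [Finset.card_singleton] at this
      omega
    exact key r1 hr1 (by
      rw [Finset.prod_eq_zero (Finset.mem_erase.2 ⟨hne.symm, hr2⟩) h2, mul_zero])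

/-! ### Sequences which are bounded by a power of the height -/

/-- bounded by a power of `H` -/
def PB (H : ℕ → ℝ) (a : ℕ → ℂ) : Prop :=
  ∃ (C : ℝ) (k : ℕ), 0 ≤ C ∧ ∀ᶠ n in atTop, ‖a n‖ ≤ C * H n ^ k

section
variable {H : ℕ → ℝ}

theorem PB.of_le {a b : ℕ → ℂ} (hb : PB H b) (h : ∀ᶠ n in atTop, ‖a n‖ ≤ ‖b n‖) : PB H a := by
  obtain ⟨C, k, hC, h1⟩ := hb
  exact ⟨C, k, hC, by filter_upwards [h, h1] with n h2 h3 using h2.trans h3⟩

theorem PB.congr {a b : ℕ → ℂ} (hb : PB H b) (h : ∀ᶠ n in atTop, a n = b n) : PB H a :=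
  hb.of_le (by filter_upwards [h] with n hn using by rw [hn])

theorem PB.const (c : ℂ) : PB H (fun _ => c) :=
  ⟨‖c‖, 0, norm_nonneg _, Eventually.of_forall (fun n => by rw [pow_zero, mul_one])⟩

theorem PB.self (hH : ∀ n, 1 ≤ H n) : PB H (fun n => (H n : ℂ)) :=
  ⟨1, 1, zero_le_one, Eventually.of_forall (fun n => by
    rw [pow_one, one_mul, Complex.norm_real, Real.norm_of_nonneg (zero_le_one.trans (hH n))])⟩

theorem PB.add (hH : ∀ n, 1 ≤ H n) {a b : ℕ → ℂ} (ha : PB H a) (hb : PB H b) :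
    PB H (fun n => a n + b n) := by
  obtain ⟨C1, k1, hC1, h1⟩ := ha
  obtain ⟨C2, k2, hC2, h2⟩ := hb
  refine ⟨C1 + C2, k1 + k2, by positivity, ?_⟩
  filter_upwards [h1, h2] with n h3 h4
  have e1 : H n ^ k1 ≤ H n ^ (k1 + k2) := pow_le_pow_right₀ (hH n) (by omega)
  have e2 : H n ^ k2 ≤ H n ^ (k1 + k2) := pow_le_pow_right₀ (hH n) (by omega)
  calc ‖a n + b n‖ ≤ ‖a n‖ + ‖b n‖ := norm_add_le _ _
    _ ≤ C1 * H n ^ k1 + C2 * H n ^ k2 := add_le_add h3 h4
    _ ≤ C1 * H n ^ (k1 + k2) + C2 * H n ^ (k1 + k2) := by gcongr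
    _ = _ := by ring

theorem PB.mul {a b : ℕ → ℂ} (ha : PB H a) (hb : PB H b) :
    PB H (fun n => a n * b n) := by
  obtain ⟨C1, k1, hC1, h1⟩ := ha
  obtain ⟨C2, k2, hC2, h2⟩ := hb
  refine ⟨C1 * C2, k1 + k2, by positivity, ?_⟩
  filter_upwards [h1, h2] with n h3 h4
  have h5 : 0 ≤ C1 * H n ^ k1 := (norm_nonneg _).trans h3
  calc ‖a n * b n‖ = ‖a n‖ * ‖b n‖ := norm_mul _ _
    _ ≤ (C1 * H n ^ k1) * (C2 * H n ^ k2) := mul_le_mul h3 h4 (norm_nonneg _) h5
    _ = _ := by ring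

theorem PB.neg {a : ℕ → ℂ} (ha : PB H a) : PB H (fun n => -a n) :=
  ha.of_le (Eventually.of_forall (fun n => by rw [norm_neg]))

theorem PB.sub (hH : ∀ n, 1 ≤ H n) {a b : ℕ → ℂ} (ha : PB H a) (hb : PB H b) :
    PB H (fun n => a n - b n) := by
  simp_rw [sub_eq_add_neg]
  exact ha.add hH hb.neg

theorem PB.pow {a : ℕ → ℂ} (ha : PB H a) (m : ℕ) : PB H (fun n => a n ^ m) := by
  induction m with
  | zero => simpa using PB.const (H := H) 1
  | succ m ih =>
    simp_rw [pow_succ]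
    exact ih.mul ha

theorem PB.sum (hH : ∀ n, 1 ≤ H n) {ι : Type} (s : Finset ι) {a : ι → ℕ → ℂ}
    (ha : ∀ i ∈ s, PB H (a i)) : PB H (fun n => ∑ i ∈ s, a i n) := by
  classical
  induction s using Finset.induction_on with
  | empty => simpa using PB.const (H := H) 0
  | insert i s hi ih =>
    simp_rw [Finset.sum_insert hi]
    exact (ha i (Finset.mem_insert_self _ _)).add hH
      (ih (fun j hj => ha j (Finset.mem_insert_of_mem hj)))

theorem PB.lt (hH : ∀ n, 1 ≤ H n) {v : ℕ → ℝ}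
    (hv : ∀ C k : ℕ, ∀ᶠ n in atTop, (C : ℝ) * H n ^ k < v n) {a : ℕ → ℂ} (ha : PB H a) :
    ∀ᶠ n in atTop, ‖a n‖ < v n := by
  obtain ⟨C, k, hC, h1⟩ := ha
  filter_upwards [h1, hv ⌈C⌉₊ k] with n h2 h3
  refine h2.trans_lt (lt_of_le_of_lt ?_ h3)
  have h4 : 0 ≤ H n ^ k := pow_nonneg (zero_le_one.trans (hH n)) _
  exact mul_le_mul_of_nonneg_right (Nat.le_ceil C) h4

theorem PB.small (hH : ∀ n, 1 ≤ H n) {v : ℕ → ℝ}
    (hv : ∀ C k : ℕ, ∀ᶠ n in atTop, (C : ℝ) * H n ^ k < v n) {a : ℕ → ℂ}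
    (ha : PB H (fun n => (v n : ℂ) * a n)) : ∀ᶠ n in atTop, ‖a n‖ < 1 := by
  filter_upwards [ha.lt hH hv, hv 0 0] with n h1 h2
  have h3 : 0 < v n := by simpa using h2
  rw [norm_mul, Complex.norm_real, Real.norm_of_nonneg h3.le] at h1
  by_contra hcon
  push Not at hcon
  exact absurd h1 (not_lt.2 (le_mul_of_one_le_right h3.le hcon))

/-- the leading term of an expansion in powers of `1 / v` -/
theorem expand (hH : ∀ n, 1 ≤ H n) {v : ℕ → ℝ} (hv1 : ∀ᶠ n in atTop, 1 ≤ v n) {e : ℕ}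
    {β : ℕ → ℝ} {A : ℕ → ℕ → ℂ} (hA : ∀ i, PB H (A i)) {j : ℕ} (hj : j ≤ e)
    (h0 : ∀ᶠ n in atTop, ∀ i < j, A i n = 0) :
    PB H (fun n => (v n : ℂ) ^ (j + 1) *
      (∑ i ∈ Finset.range (e + 1), (β i : ℂ) * A i n / (v n : ℂ) ^ i) -
        (v n : ℂ) * ((β j : ℂ) * A j n)) := by
  have h1 : ∀ i ∈ Finset.range (e + 1), PB H (fun n => if i ≤ j then 0 else
      (β i : ℂ) * A i n * ((v n : ℂ) ^ (j + 1) / (v n : ℂ) ^ i)) := by
    intro i _
    by_cases hi : i ≤ j
    · simp only [hi, if_true]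
      exact PB.const 0
    · simp only [hi, if_false]
      refine ((PB.const (β i : ℂ)).mul (hA i)).of_le ?_
      filter_upwards [hv1] with n hn
      have h2 : 0 < v n := zero_lt_one.trans_le hn
      rw [norm_mul]
      refine mul_le_of_le_one_right (norm_nonneg _) ?_
      rw [norm_div, norm_pow, norm_pow, Complex.norm_real, Real.norm_of_nonneg h2.le,
        div_le_one (by positivity)]
      exact pow_le_pow_right₀ hn (by omega)
  refine (PB.sum hH _ h1).congr ?_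
  filter_upwards [h0, hv1] with n hn hn1
  have hv0 : (v n : ℂ) ≠ 0 := by
    have : 0 < v n := zero_lt_one.trans_le hn1
    exact_mod_cast this.ne'
  rw [Finset.mul_sum, ← Finset.add_sum_erase _ _ (Finset.mem_range.2 (show j < e + 1 by omega)),
    ← Finset.add_sum_erase (Finset.range (e + 1)) (fun i => if i ≤ j then (0 : ℂ) else
      (β i : ℂ) * A i n * ((v n : ℂ) ^ (j + 1) / (v n : ℂ) ^ i))
      (Finset.mem_range.2 (show j < e + 1 by omega))]
  simp only [le_refl, if_true, zero_add]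
  have e1 : (v n : ℂ) ^ (j + 1) * ((β j : ℂ) * A j n / (v n : ℂ) ^ j) =
      (v n : ℂ) * ((β j : ℂ) * A j n) := by
    rw [pow_succ]
    field_simp
  rw [e1, add_sub_cancel_left]
  refine Finset.sum_congr rfl (fun i hi => ?_)
  rw [Finset.mem_erase] at hi
  by_cases hij : i ≤ j
  · rw [if_pos hij, hn i (lt_of_le_of_ne hij hi.1)]
    simp
  · rw [if_neg hij]
    ring

end

end Pool.Agent.Y515.HY
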