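import Mathlib
import Pool.Agent.Y515.HY.Fake1
import Pool.Agent.Y515.HY.Fake2

/-!
# Points with trivial image modulo rational numbers and squares: the asymptotic argument
-/

set_option autoImplicit false

namespace Pool.Agent.Y515.HY

open Polynomial Filter Pool.Agent.Y674.HY

section
variable {H : ℕ → ℝ}

theorem PB.lower {v : ℕ → ℝ} (hv1 : ∀ᶠ n in atTop, 1 ≤ v n) {y : ℕ → ℂ} {m m' : ℕ} (hm : m ≤ m')
    (hy : PB H (fun n => (v n : ℂ) ^ m' * y n)) : PB H (fun n => (v n : ℂ) ^ m * y n) := by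
  refine hy.of_le ?_
  filter_upwards [hv1] with n hn
  rw [norm_mul, norm_mul, norm_pow, norm_pow, Complex.norm_real,
    Real.norm_of_nonneg (zero_le_one.trans hn)]
  gcongr

theorem PB.of_mul {v : ℕ → ℝ} (hv1 : ∀ᶠ n in atTop, 1 ≤ v n) {y : ℕ → ℂ}
    (hy : PB H (fun n => (v n : ℂ) * y n)) : PB H y := by
  refine hy.of_le ?_
  filter_upwards [hv1] with n hn
  rw [norm_mul, Complex.norm_real, Real.norm_of_nonneg (zero_le_one.trans hn)]
  exact le_mul_of_one_le_left (norm_nonneg _) hn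

theorem first_order (hH : ∀ n, 1 ≤ H n) {v : ℕ → ℝ} (hv1 : ∀ᶠ n in atTop, 1 ≤ v n) {e : ℕ}
    {β : ℕ → ℝ} (hβ0 : β 0 = 1) {A : ℕ → ℕ → ℂ} (hA : ∀ i, PB H (A i)) {y : ℕ → ℂ}
    (hy : PB H (fun n => (v n : ℂ) ^ (e + 1) *
      (y n - ∑ i ∈ Finset.range (e + 1), (β i : ℂ) * A i n / (v n : ℂ) ^ i))) :
    PB H (fun n => (v n : ℂ) * (y n - A 0 n)) := by
  have h1 := expand hH hv1 (e := e) (β := β) hA (j := 0) (Nat.zero_le _)
    (Eventually.of_forall (fun n i hi => absurd hi (by omega)))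
  have h2 := PB.lower hv1 (show 1 ≤ e + 1 by omega) hy
  refine (h1.add hH h2).congr (Eventually.of_forall (fun n => ?_))
  try dsimp only
  rw [hβ0]
  push_cast
  ring

end

theorem asym (h2 : LIOU) {e : ℕ} (he : 2 ≤ e) {β : ℕ → ℝ} {K : ℝ} (hβ0 : β 0 = 1)
    (hβ : ∀ j, β j ≠ 0) (hK : 0 ≤ K)
    (hexp : ∀ (v : ℝ), 0 < v → ∀ (z : ℂ), 2 * ‖z‖ ≤ v → ∃ t : ℂ, (v : ℂ) * t ^ 2 = v - z ∧
      ‖t - ∑ j ∈ Finset.range (e + 1), (β j : ℂ) * (z / (v : ℂ)) ^ j‖ ≤
        K * (‖z‖ / v) ^ (e + 1))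
    (h : ℕ → ℤ[X]) (H : ℕ → ℕ) (v : ℕ → ℤ) (ε : ℕ → ℂ → ℤ) (z : ℕ → ℂ) (Q : ℕ → ℤ)
    (deg : ∀ n, (h n).natDegree = e) (sep : ∀ n, ((h n).map (Int.castRingHom ℚ)).Separable)
    (H1 : ∀ n, 1 ≤ H n) (coef : ∀ n i, |(h n).coeff i| ≤ (H n : ℤ))
    (eps : ∀ n, ∀ r ∈ Rt (h n), ε n r = 1 ∨ ε n r = -1)
    (zQ : ∀ n, ((v n : ℝ) : ℂ) * z n ^ 2 = Q n)
    (app : ∀ n, ‖z n - ∑ j ∈ Finset.range (e + 1), (β j : ℂ) *
        (∑ r ∈ Rt (h n), (ε n r : ℂ) * (((h n).leadingCoeff : ℂ) * r) ^ j) /
          ((v n : ℝ) : ℂ) ^ j‖ ≤ e * (K * (2 * H n / (v n : ℝ)) ^ (e + 1)))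
    (grow : ∀ n : ℕ, (n : ℝ) * (H n : ℝ) ^ n < (v n : ℝ)) : False := by
  have h0 : ∀ n, h n ≠ 0 := by
    intro n hn
    have h1 := deg n
    rw [hn, natDegree_zero] at h1
    omega
  set Hr : ℕ → ℝ := fun n => (H n : ℝ) with hHr
  set w : ℕ → ℝ := fun n => (v n : ℝ) with hw
  have hH : ∀ n, 1 ≤ Hr n := fun n => by
    simp only [hHr]
    exact_mod_cast H1 n
  have hv : ∀ C k : ℕ, ∀ᶠ n in atTop, (C : ℝ) * Hr n ^ k < w n := by
    intro C k
    filter_upwards [eventually_ge_atTop (max C k)] with n hn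
    have hC : (C : ℝ) ≤ n := by exact_mod_cast (le_max_left _ _).trans hn
    have hk : k ≤ n := (le_max_right _ _).trans hn
    refine lt_of_le_of_lt ?_ (grow n)
    have h3 : Hr n ^ k ≤ Hr n ^ n := pow_le_pow_right₀ (hH n) hk
    have h4 : 0 ≤ Hr n ^ k := pow_nonneg (zero_le_one.trans (hH n)) _
    exact mul_le_mul hC h3 h4 (Nat.cast_nonneg _)
  have hv1 : ∀ᶠ n in atTop, 1 ≤ w n := by
    filter_upwards [hv 1 0] with n hn
    simpa using hn.le
  set S : ℕ → ℕ → ℂ := fun j n =>
    ∑ r ∈ Rt (h n), (ε n r : ℂ) * (((h n).leadingCoeff : ℂ) * r) ^ j with hS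
  have hεn : ∀ n, ∀ r ∈ Rt (h n), ‖(ε n r : ℂ)‖ = 1 := by
    intro n r hr
    rcases eps n r hr with h3 | h3 <;> rw [h3] <;> simp
  have hSb : ∀ j, PB Hr (S j) := by
    intro j
    refine (((PB.const (e : ℂ)).mul (((PB.const 2).mul (PB.self hH)).pow j))).of_le
      (Eventually.of_forall (fun n => ?_))
    have h3 : ‖(e : ℂ) * (2 * (Hr n : ℂ)) ^ j‖ = e * (2 * Hr n) ^ j := by
      rw [norm_mul, norm_pow, norm_mul, Complex.norm_real, Complex.norm_natCast,
        Real.norm_of_nonneg (zero_le_one.trans (hH n)), Complex.norm_ofNat]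
    rw [h3]
    refine (norm_sum_le _ _).trans ?_
    have h4 : ∀ r ∈ Rt (h n), ‖(ε n r : ℂ) * (((h n).leadingCoeff : ℂ) * r) ^ j‖ ≤
        (2 * Hr n) ^ j := by
      intro r hr
      rw [norm_mul, hεn n r hr, one_mul, norm_pow]
      exact pow_le_pow_left₀ (norm_nonneg _) (root_bound (h0 n) (coef n) hr) _
    refine (Finset.sum_le_sum h4).trans ?_
    rw [Finset.sum_const, rt_card (sep n), deg n, nsmul_eq_mul]
  set N : ℕ → ℤ := fun n => ∑ r ∈ Rt (h n), ε n r with hN
  have hS0 : ∀ n, S 0 n = (N n : ℂ) := by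
    intro n
    simp only [hS, hN, pow_zero, mul_one]
    push_cast
    rfl
  -- the first order
  have hE1 : PB Hr (fun n => (w n : ℂ) ^ (e + 1) *
      (z n - ∑ i ∈ Finset.range (e + 1), (β i : ℂ) * S i n / (w n : ℂ) ^ i)) := by
    refine (((PB.const ((e * K : ℝ) : ℂ)).mul
      (((PB.const 2).mul (PB.self hH)).pow (e + 1)))).of_le ?_
    filter_upwards [hv1] with n hn
    have hwn : 0 < w n := zero_lt_one.trans_le hn
    have h3 : ‖((e * K : ℝ) : ℂ) * (2 * (Hr n : ℂ)) ^ (e + 1)‖ =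
        (e * K) * (2 * Hr n) ^ (e + 1) := by
      rw [norm_mul, norm_pow, norm_mul, Complex.norm_real, Complex.norm_real,
        Real.norm_of_nonneg (zero_le_one.trans (hH n)), Complex.norm_ofNat,
        Real.norm_of_nonneg (by positivity)]
    rw [h3, norm_mul, norm_pow, Complex.norm_real, Real.norm_of_nonneg hwn.le]
    calc _ ≤ w n ^ (e + 1) * (e * (K * (2 * Hr n / w n) ^ (e + 1))) := by
          gcongr
          exact app n
      _ = _ := by
          rw [div_pow]
          field_simp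
  have hz1 : PB Hr (fun n => (w n : ℂ) * (z n - N n)) := by
    refine (first_order hH hv1 hβ0 hSb hE1).congr (Eventually.of_forall (fun n => ?_))
    try dsimp only
    rw [hS0]
  have hz0 : PB Hr (fun n => z n - N n) := PB.of_mul hv1 hz1
  have hNb : PB Hr (fun n => (N n : ℂ)) := by
    refine (hSb 0).congr (Eventually.of_forall (fun n => ?_))
    exact (hS0 n).symm
  -- the integer `q`
  set q : ℕ → ℤ := fun n => Q n - N n ^ 2 * v n with hq
  have hqc : ∀ n, (q n : ℂ) = w n * (z n ^ 2 - N n ^ 2) := by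
    intro n
    simp only [hq, hw]
    push_cast
    rw [← zQ n]
    push_cast
    ring
  have hqb : PB Hr (fun n => (q n : ℂ)) := by
    refine (hz1.mul (((PB.const 2).mul hNb).add hH hz0)).congr
      (Eventually.of_forall (fun n => ?_))
    try dsimp only
    rw [hqc]
    ring
  have hq0 : ∀ᶠ n in atTop, N n = 0 → q n = 0 := by
    have h3 : PB Hr (fun n => (w n : ℂ) * (w n * (z n - N n) ^ 2)) := by
      refine (hz1.pow 2).congr (Eventually.of_forall (fun n => ?_))
      try dsimp only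
      ring
    filter_upwards [h3.small hH hv] with n hn hNn
    have h4 : (q n : ℂ) = w n * (z n - N n) ^ 2 := by
      rw [hqc, hNn]
      push_cast
      ring
    rw [← h4, Complex.norm_intCast] at hn
    have h5 : |q n| < 1 := by exact_mod_cast hn
    exact Int.abs_lt_one_iff.1 h5
  -- the point `s`
  set s : ℕ → ℂ := fun n => -(q n : ℂ) / (N n : ℂ) ^ 2 with hs
  have hsb : PB Hr s := by
    refine hqb.of_le (Eventually.of_forall (fun n => ?_))
    simp only [hs]
    by_cases hNn : N n = 0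
    · rw [hNn]
      simp
    · rw [norm_div, norm_neg, norm_pow, Complex.norm_intCast, Complex.norm_intCast]
      apply div_le_self (abs_nonneg _)
      have h3 : 1 ≤ |N n| := Int.one_le_abs hNn
      have h4 : (1 : ℝ) ≤ |(N n : ℝ)| := by exact_mod_cast h3
      exact one_le_pow₀ h4
  have hsN : ∀ᶠ n in atTop, (N n : ℂ) ^ 2 * s n = -q n := by
    filter_upwards [hq0] with n hn
    simp only [hs]
    by_cases hNn : N n = 0
    · rw [hn hNn, hNn]
      simp
    · have : (N n : ℂ) ≠ 0 := by exact_mod_cast hNn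
      field_simp
  have hs2 : ∀ᶠ n in atTop, 2 * ‖s n‖ ≤ w n := by
    filter_upwards [((PB.const 2).mul hsb).lt hH hv] with n hn
    rw [norm_mul, Complex.norm_ofNat] at hn
    exact hn.le
  have ht : ∀ n, ∃ t : ℂ, 2 * ‖s n‖ ≤ w n → 0 < w n → (w n : ℂ) * t ^ 2 = w n - s n ∧
      ‖t - ∑ j ∈ Finset.range (e + 1), (β j : ℂ) * (s n / (w n : ℂ)) ^ j‖ ≤
        K * (‖s n‖ / w n) ^ (e + 1) := by
    intro n
    by_cases h3 : 2 * ‖s n‖ ≤ w n ∧ 0 < w n
    · obtain ⟨t, ht⟩ := hexp (w n) h3.2 (s n) h3.1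
      exact ⟨t, fun _ _ => ht⟩
    · exact ⟨0, fun h4 h5 => absurd ⟨h4, h5⟩ h3⟩
  choose t ht using ht
  have hE2 : PB Hr (fun n => (w n : ℂ) ^ (e + 1) *
      (t n - ∑ i ∈ Finset.range (e + 1), (β i : ℂ) * s n ^ i / (w n : ℂ) ^ i)) := by
    refine ((PB.const (K : ℂ)).mul (hsb.pow (e + 1))).of_le ?_
    filter_upwards [hv1, hs2] with n hn hn2
    have hwn : 0 < w n := zero_lt_one.trans_le hn
    have h3 := (ht n hn2 hwn).2
    rw [norm_mul, norm_mul, norm_pow, norm_pow, Complex.norm_real, Complex.norm_real,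
      Real.norm_of_nonneg hwn.le, Real.norm_of_nonneg hK]
    have h4 : ∑ i ∈ Finset.range (e + 1), (β i : ℂ) * s n ^ i / (w n : ℂ) ^ i =
        ∑ j ∈ Finset.range (e + 1), (β j : ℂ) * (s n / (w n : ℂ)) ^ j := by
      refine Finset.sum_congr rfl (fun i _ => ?_)
      rw [div_pow]
      ring
    rw [h4]
    calc _ ≤ w n ^ (e + 1) * (K * (‖s n‖ / w n) ^ (e + 1)) := by gcongr
      _ = _ := by
          rw [div_pow]
          field_simp
  have ht1 : PB Hr (fun n => (w n : ℂ) * (t n - 1)) := by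
    refine (first_order hH hv1 hβ0 (A := fun i n => s n ^ i) (fun i => hsb.pow i) hE2).congr
      (Eventually.of_forall (fun n => ?_))
    try dsimp only
    rw [pow_zero]
  -- `z = N t`
  have hzt : ∀ᶠ n in atTop, z n = N n * t n := by
    have h3 : PB Hr (fun n => (w n : ℂ) * ((z n - N n) + N n * (t n - 1))) := by
      refine (hz1.add hH (hNb.mul ht1)).congr (Eventually.of_forall (fun n => ?_))
      try dsimp only
      ring
    filter_upwards [h3.small hH hv, hv1, hs2, hsN] with n hn hn1 hn2 hn3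
    have hwn : 0 < w n := zero_lt_one.trans_le hn1
    have hwc : (w n : ℂ) ≠ 0 := by exact_mod_cast hwn.ne'
    have h4 := (ht n hn2 hwn).1
    have h5 : z n ^ 2 = (N n * t n) ^ 2 := by
      apply mul_left_cancel₀ hwc
      have h6 := hqc n
      linear_combination (N n : ℂ) ^ 2 * (-h4) - h6 + hn3
    rcases sq_eq_sq_iff_eq_or_eq_neg.1 h5 with h6 | h6
    · exact h6
    · have h7 : (z n - N n) + N n * (t n - 1) = -(2 * (N n : ℂ)) := by
        rw [h6]
        ring
      rw [h7, norm_neg, norm_mul, Complex.norm_ofNat, Complex.norm_intCast] at hn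
      have h8 : N n = 0 := by
        by_contra hne
        have h9 : 1 ≤ |N n| := Int.one_le_abs hne
        have h10 : (1 : ℝ) ≤ |(N n : ℝ)| := by exact_mod_cast h9
        linarith
      rw [h6, h8]
      simp
  -- the differences
  set B : ℕ → ℕ → ℂ := fun j n => S j n - N n * s n ^ j with hB
  have hBb : ∀ j, PB Hr (B j) := fun j => (hSb j).sub hH (hNb.mul (hsb.pow j))
  have hFB : PB Hr (fun n => (w n : ℂ) ^ (e + 1) *
      (∑ i ∈ Finset.range (e + 1), (β i : ℂ) * B i n / (w n : ℂ) ^ i)) := by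
    refine ((hNb.mul hE2).sub hH hE1).congr ?_
    filter_upwards [hzt] with n hn
    have h3 : ∑ i ∈ Finset.range (e + 1), (β i : ℂ) * B i n / (w n : ℂ) ^ i =
        ∑ i ∈ Finset.range (e + 1), (β i : ℂ) * S i n / (w n : ℂ) ^ i -
        N n * ∑ i ∈ Finset.range (e + 1), (β i : ℂ) * s n ^ i / (w n : ℂ) ^ i := by
      rw [Finset.mul_sum, ← Finset.sum_sub_distrib]
      refine Finset.sum_congr rfl (fun i _ => ?_)
      simp only [hB]
      ring
    rw [h3, hn]
    ring
  set M : ℕ → ℤ := fun n => if N n = 0 then 1 else N n with hM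
  have hM0 : ∀ n, M n ≠ 0 := by
    intro n
    simp only [hM]
    split_ifs with h3
    · exact one_ne_zero
    · exact h3
  have hMb : PB Hr (fun n => (M n : ℂ)) := by
    refine ((PB.const 1).add hH (hNb.mul hNb)).of_le (Eventually.of_forall (fun n => ?_))
    have h3 : (1 : ℂ) + N n * N n = ((1 + N n * N n : ℤ) : ℂ) := by push_cast; ring
    try dsimp only
    rw [h3, Complex.norm_intCast, Complex.norm_intCast]
    have h4 : |M n| ≤ |1 + N n * N n| := by
      simp only [hM]
      rw [abs_of_nonneg (show (0 : ℤ) ≤ 1 + N n * N n from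
        add_nonneg zero_le_one (mul_self_nonneg _))]
      split_ifs with h5
      · rw [h5]
        simp
      · rw [abs_le]
        constructor <;> nlinarith [sq_nonneg (N n + 1), sq_nonneg (N n - 1)]
    exact_mod_cast h4
  have hMs : ∀ᶠ n in atTop, ∀ j, (M n : ℂ) ^ (2 * j) * (N n * s n ^ j) =
      N n * (-(q n : ℂ)) ^ j := by
    filter_upwards [hsN] with n hn j
    by_cases hNn : N n = 0
    · rw [hNn]
      simp
    · have h3 : M n = N n := by
        simp only [hM]
        rw [if_neg hNn]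
      rw [h3, ← hn, mul_pow, ← pow_mul]
      ring
  -- induction
  have main : ∀ j, j ≤ e + 1 → ∀ᶠ n in atTop, ∀ i < j, B i n = 0 := by
    intro j
    induction j with
    | zero => exact fun _ => Eventually.of_forall (fun n i hi => absurd hi (by omega))
    | succ j ih =>
      intro hj
      have hj' : j ≤ e := by omega
      have ih' := ih (by omega)
      have h3 := expand hH hv1 (e := e) (β := β) hBb hj' ih'
      have h4 : PB Hr (fun n => (w n : ℂ) ^ (j + 1) *
          (∑ i ∈ Finset.range (e + 1), (β i : ℂ) * B i n / (w n : ℂ) ^ i)) :=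
        PB.lower hv1 (by omega) hFB
      have h5 : PB Hr (fun n => (w n : ℂ) * B j n) := by
        refine ((PB.const ((β j : ℂ)⁻¹)).mul (h4.sub hH h3)).congr
          (Eventually.of_forall (fun n => ?_))
        try dsimp only
        have h6 : (β j : ℂ) ≠ 0 := by exact_mod_cast hβ j
        field_simp
        ring
      set G : ℕ → ℝ := fun n => (1 + e * (|(M n : ℝ)| ^ (2 * j)) * (2 * Hr n) ^ j +
        |((N n * (-q n) ^ j : ℤ) : ℝ)|) ^ e.factorial with hG
      have hGb : PB Hr (fun n => (G n : ℂ)) := by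
        have g1 : PB Hr (fun n => ((|(M n : ℝ)| : ℝ) : ℂ)) := by
          refine hMb.of_le (Eventually.of_forall (fun n => ?_))
          try dsimp only
          rw [Complex.norm_real, Complex.norm_intCast, Real.norm_eq_abs, abs_abs]
        have g2 : PB Hr (fun n => ((|((N n * (-q n) ^ j : ℤ) : ℝ)| : ℝ) : ℂ)) := by
          refine (hNb.mul ((hqb.neg).pow j)).of_le (Eventually.of_forall (fun n => ?_))
          try dsimp only
          have g3 : (N n : ℂ) * (-(q n : ℂ)) ^ j = ((N n * (-q n) ^ j : ℤ) : ℂ) := by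
            push_cast
            ring
          rw [g3, Complex.norm_real, Complex.norm_intCast, Real.norm_eq_abs, abs_abs]
        refine ((((PB.const 1).add hH (((PB.const (e : ℂ)).mul (g1.pow (2 * j))).mul
          (((PB.const 2).mul (PB.self hH)).pow j))).add hH g2).pow e.factorial).congr
          (Eventually.of_forall (fun n => ?_))
        simp only [hG]
        push_cast
        ring
      have h7 : PB Hr (fun n => (w n : ℂ) * ((M n : ℂ) ^ (2 * j) * B j n * G n)) := by
        refine (h5.mul ((hMb.pow (2 * j)).mul hGb)).congr (Eventually.of_forall (fun n => ?_))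
        try dsimp only
        ring
      filter_upwards [ih', h7.small hH hv, hMs] with n hn1 hn2 hn3
      intro i hi
      rcases Nat.lt_succ_iff_lt_or_eq.1 hi with hi | rfl
      · exact hn1 i hi
      have hα : (M n : ℂ) ^ (2 * i) * B i n =
          ∑ r ∈ Rt (h n), ((M n ^ (2 * i) * ε n r : ℤ) : ℂ) *
            (((h n).leadingCoeff : ℂ) * r) ^ i - ((N n * (-q n) ^ i : ℤ) : ℂ) := by
        simp only [hB]
        rw [mul_sub, hn3 i]
        simp only [hS]
        rw [Finset.mul_sum]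
        push_cast
        congr 1
        refine Finset.sum_congr rfl (fun r _ => ?_)
        ring
      have hc : ∀ r ∈ Rt (h n), |((M n ^ (2 * i) * ε n r : ℤ) : ℝ)| ≤
          |(M n : ℝ)| ^ (2 * i) := by
        intro r hr
        have h8 : |(ε n r : ℝ)| = 1 := by
          rcases eps n r hr with h9 | h9 <;> rw [h9] <;> simp
        push_cast
        rw [abs_mul, abs_pow, h8, mul_one]
      rcases h2 e (h n) (H n) (by omega) (deg n) (sep n) (H1 n) (coef n)
        (fun r => M n ^ (2 * i) * ε n r) (|(M n : ℝ)| ^ (2 * i)) (by positivity) hc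
        (N n * (-q n) ^ i) i _ hα with h9 | h9
      · rcases mul_eq_zero.1 h9 with h10 | h10
        · exact absurd h10 (pow_ne_zero _ (by exact_mod_cast hM0 n))
        · exact h10
      · exfalso
        have hGn : 0 ≤ G n := by
          simp only [hG]
          have : 0 ≤ Hr n := zero_le_one.trans (hH n)
          positivity
        rw [norm_mul, Complex.norm_real, Real.norm_of_nonneg hGn] at hn2
        exact absurd hn2 (not_lt.2 h9)
  obtain ⟨n, hn⟩ := (main (e + 1) le_rfl).exists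
  have hcard : (Rt (h n)).card = e := by rw [rt_card (sep n), deg n]
  refine final_alg (R := Rt (h n)) (b := ((h n).leadingCoeff : ℂ)) (s := s n) (N := (N n : ℂ))
    (ε := fun r => (ε n r : ℂ)) (by omega) ?_ ?_ ?_
  · exact_mod_cast leadingCoeff_ne_zero.2 (h0 n)
  · intro r hr h3
    have h4 := hεn n r hr
    rw [h3, norm_zero] at h4
    exact zero_ne_one h4
  · intro j hj
    have h3 := hn j (by omega)
    simp only [hB] at h3
    exact sub_eq_zero.1 h3

end Pool.Agent.Y515.HY
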