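import Mathlib
import Pool.Agent.Y515.HY.Fake3

/-!
# Points with trivial image modulo rational numbers and squares

`fake : EXPS → LIOU → FAKE`.
-/

set_option autoImplicit false

namespace Pool.Agent.Y515.HY

open Polynomial Filter Pool.Agent.Y674.HY

theorem fake (h1 : EXPS) (h2 : LIOU) : FAKE := by
  intro e he
  obtain ⟨β, K, hβ0, hβ, hK, hexp⟩ := h1 e
  have hexp' : ∀ (v : ℝ), 0 < v → ∀ (z : ℂ), 2 * ‖z‖ ≤ v → ∃ t : ℂ, (v : ℂ) * t ^ 2 = v - z ∧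
      ‖t - ∑ j ∈ Finset.range (e + 1), (β j : ℂ) * (z / (v : ℂ)) ^ j‖ ≤
        K * (‖z‖ / v) ^ (e + 1) := fun v hv z hz => exps' hexp hv z hz
  by_contra hcon
  push Not at hcon
  have key : ∀ n : ℕ, ∃ (h : ℤ[X]) (H : ℕ) (v : ℤ) (ε : ℂ → ℤ) (z : ℂ) (Q : ℤ),
      h.natDegree = e ∧ (h.map (Int.castRingHom ℚ)).Separable ∧ 1 ≤ H ∧
      (∀ i, |h.coeff i| ≤ (H : ℤ)) ∧ (∀ r ∈ Rt h, ε r = 1 ∨ ε r = -1) ∧
      ((v : ℝ) : ℂ) * z ^ 2 = Q ∧
      ‖z - ∑ j ∈ Finset.range (e + 1), (β j : ℂ) *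
        (∑ r ∈ Rt h, (ε r : ℂ) * ((h.leadingCoeff : ℂ) * r) ^ j) / ((v : ℝ) : ℂ) ^ j‖ ≤
          e * (K * (2 * H / (v : ℝ)) ^ (e + 1)) ∧ (n : ℝ) * (H : ℝ) ^ n < (v : ℝ) := by
    intro n
    obtain ⟨g, H, hdeg, hsep, H1, hcoef, x, D, ρ, hD, hdvd, hx⟩ := hcon (n + 4) (n + 1)
    have hH1 : (1 : ℝ) ≤ H := by exact_mod_cast H1
    have hx0 : x ≠ 0 := by
      rintro rfl
      rw [Int.cast_zero, abs_zero] at hx
      exact absurd hx (not_lt.2 (by positivity))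
    have hg0 : g ≠ 0 := by
      rintro rfl
      rw [natDegree_zero] at hdeg
      omega
    obtain ⟨h, hdeg', hsep', hcoef', hdvd', hpos⟩ : ∃ h : ℤ[X], h.natDegree = e ∧
        (h.map (Int.castRingHom ℚ)).Separable ∧ (∀ i, |h.coeff i| ≤ (H : ℤ)) ∧
        h.map (Int.castRingHom ℚ) ∣ C D * ρ ^ 2 - (C (x : ℚ) - X) ∧
        0 < h.leadingCoeff * x := by
      rcases lt_or_gt_of_ne (mul_ne_zero (leadingCoeff_ne_zero.2 hg0) hx0) with hl | hl
      · refine ⟨-g, by rw [natDegree_neg, hdeg], ?_, ?_, ?_, ?_⟩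
        · rw [Polynomial.map_neg]
          exact hsep.of_dvd (neg_dvd.2 dvd_rfl)
        · intro i
          rw [coeff_neg, abs_neg]
          exact hcoef i
        · rw [Polynomial.map_neg, neg_dvd]
          exact hdvd
        · rw [leadingCoeff_neg, neg_mul]
          exact neg_pos.2 hl
      · exact ⟨g, hdeg, hsep, hcoef, hdvd, hl⟩
    have hle : |x| ≤ h.leadingCoeff * x := by
      rw [← abs_of_pos hpos, abs_mul]
      refine le_mul_of_one_le_left (abs_nonneg _) (Int.one_le_abs ?_)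
      intro h0
      rw [h0, zero_mul] at hpos
      exact lt_irrefl _ hpos
    have hle' : |(x : ℝ)| ≤ ((h.leadingCoeff * x : ℤ) : ℝ) := by exact_mod_cast hle
    have hbig : ((n : ℝ) + 4) * (H : ℝ) ^ (n + 1) < ((h.leadingCoeff * x : ℤ) : ℝ) := by
      have h3 := hx.trans_le hle'
      push_cast at h3 ⊢
      exact h3
    have hp1 : (H : ℝ) ≤ (H : ℝ) ^ (n + 1) := le_self_pow₀ hH1 (Nat.succ_ne_zero n)
    have hp2 : (H : ℝ) ^ n ≤ (H : ℝ) ^ (n + 1) := pow_le_pow_right₀ hH1 (Nat.le_succ n)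
    have h4 : 4 * (H : ℤ) ≤ h.leadingCoeff * x := by
      have h5 : 4 * (H : ℝ) ≤ ((h.leadingCoeff * x : ℤ) : ℝ) := by
        refine le_trans ?_ hbig.le
        have h6 : 0 ≤ (n : ℝ) * (H : ℝ) ^ (n + 1) := by positivity
        nlinarith
      exact_mod_cast h5
    obtain ⟨ε, z, Q, h5, h6, h7⟩ := setup hK hexp' hdeg' he hsep' hcoef' hdvd' rfl hpos h4
    have hcast : (((h.leadingCoeff * x : ℤ) : ℝ) : ℂ) = ((h.leadingCoeff * x : ℤ) : ℂ) := by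
      push_cast
      rfl
    refine ⟨h, H, h.leadingCoeff * x, ε, z, Q, hdeg', hsep', H1, hcoef', h5, ?_, ?_, ?_⟩
    · rw [hcast]
      exact h6
    · rw [hcast]
      exact h7
    · refine lt_of_le_of_lt ?_ hbig
      have h8 : 0 ≤ (H : ℝ) ^ (n + 1) := by positivity
      have h9 : (n : ℝ) * (H : ℝ) ^ n ≤ (n : ℝ) * (H : ℝ) ^ (n + 1) :=
        mul_le_mul_of_nonneg_left hp2 (Nat.cast_nonneg n)
      linarith
  choose h H v ε z Q hk using key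
  exact asym h2 he hβ0 hβ hK hexp' h H v ε z Q (fun n => (hk n).1) (fun n => (hk n).2.1)
    (fun n => (hk n).2.2.1) (fun n => (hk n).2.2.2.1) (fun n => (hk n).2.2.2.2.1)
    (fun n => (hk n).2.2.2.2.2.1) (fun n => (hk n).2.2.2.2.2.2.1)
    (fun n => (hk n).2.2.2.2.2.2.2)

end Pool.Agent.Y515.HY
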